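import Mathlib

set_option autoImplicit false

namespace Pool.Agent.Results.MP_3d4fca_co.Nine

/-- no two distinct vertices have the same ball of radius `2` -/
def TwinFree {V : Type} (G : SimpleGraph V) : Prop :=
  ∀ u v, {w | G.edist w u ≤ 2} = {w | G.edist w v ≤ 2} → u = v

/-- `2`-terminal -/
def Terminal {V : Type} (G : SimpleGraph V) : Prop :=
  TwinFree G ∧ ∀ v, ¬ TwinFree (G.induce {w | w ≠ v})

def G : SimpleGraph (Fin 9) := .fromRel fun i j => (i.1, j.1) ∈
  [(0, 5), (0, 6), (1, 6), (0, 7), (2, 7), (3, 7), (5, 7), (1, 8), (2, 8), (4, 8), (6, 8)]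

instance : DecidableRel G.Adj := fun _ _ => by unfold G; infer_instance

theorem tf {V : Type} (G : SimpleGraph V) : TwinFree G ↔ ∀ u v, (∀ w,
    (w = u ∨ G.Adj w u ∨ ∃ x, G.Adj w x ∧ G.Adj u x) ↔
      (w = v ∨ G.Adj w v ∨ ∃ x, G.Adj w x ∧ G.Adj v x)) → u = v := by
  have : ∀ w u, G.edist w u ≤ 2 ↔ w = u ∨ G.Adj w u ∨ ∃ x, G.Adj w x ∧ G.Adj u x := fun w u => by
    rw [← not_lt, SimpleGraph.two_lt_edist_iff, Set.eq_empty_iff_forall_notMem]
    simp only [SimpleGraph.mem_commonNeighbors, ← not_exists]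
    simp only [not_and_or, ne_eq, not_not]
  simp only [TwinFree, Set.ext_iff, Set.mem_setOf_eq, this]

theorem result : ∃ G : SimpleGraph (Fin 9), G.Connected ∧ Terminal G ∧
    IsEmpty (G ≃g SimpleGraph.pathGraph 5) := by
  refine ⟨G, by decide +kernel, ⟨?_, ?_⟩, ⟨fun e => by simpa using e.card_eq⟩⟩
  · rw [tf]; decide +kernel
  · simp only [tf]; decide +kernel

end Pool.Agent.Results.MP_3d4fca_co.Nine
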